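import Mathlib

set_option autoImplicit false

open Set Metric Filter Topology

namespace Pool.Agent.Lib.MP_fef6c2_gt

variable {E : Type*} [NormedAddCommGroup E] [NormedSpace ℝ E]

/-- A point of a ball can be reached from the centre by a homeomorphism supported in the ball. -/
theorem exists_homeo_ball [CompleteSpace E] {a b : E} {r : ℝ} (hb : b ∈ ball a r) :
    ∃ h : E ≃ₜ E, (∀ x, x ∉ ball a r → h x = x) ∧ h a = b := by
  have hr : 0 < r := pos_of_mem_ball hb
  have hba : ‖b - a‖ < r := by rwa [mem_ball, dist_eq_norm] at hb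
  let φ : E → ℝ := fun x => max (r - dist x a) 0 / r
  let f : E → E := fun x => x + φ x • (b - a)
  let c : NNReal := ⟨‖b - a‖ / r, by positivity⟩
  have hc1 : (c : ℝ) < 1 := by
    change ‖b - a‖ / r < 1
    rwa [div_lt_one hr]
  have happ : ApproximatesLinearOn f
      ((ContinuousLinearEquiv.refl ℝ E : E ≃L[ℝ] E) : E →L[ℝ] E) univ c := by
    intro x _ y _
    have h1 : f x - f y - ((ContinuousLinearEquiv.refl ℝ E : E ≃L[ℝ] E) : E →L[ℝ] E) (x - y)
        = (φ x - φ y) • (b - a) := by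
      simp only [f, ContinuousLinearEquiv.coe_refl, ContinuousLinearMap.id_apply, sub_smul]
      abel
    rw [h1, norm_smul]
    have h2 : |max (r - dist x a) 0 - max (r - dist y a) 0| ≤ ‖x - y‖ := by
      refine (abs_max_sub_max_le_abs _ _ _).trans ?_
      have := abs_dist_sub_le y x a
      rw [dist_comm y x, dist_eq_norm x y] at this
      have e : r - dist x a - (r - dist y a) = dist y a - dist x a := by ring
      rw [e]
      exact this
    have h3 : ‖φ x - φ y‖ ≤ ‖x - y‖ / r := by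
      simp only [φ, Real.norm_eq_abs]
      rw [← sub_div, abs_div, abs_of_pos hr]
      gcongr
    calc ‖φ x - φ y‖ * ‖b - a‖ ≤ ‖x - y‖ / r * ‖b - a‖ := by gcongr
      _ = c * ‖x - y‖ := by
        change _ = ‖b - a‖ / r * ‖x - y‖
        ring
  have hc : Subsingleton E ∨
      c < ‖((ContinuousLinearEquiv.refl ℝ E : E ≃L[ℝ] E).symm : E →L[ℝ] E)‖₊⁻¹ := by
    rcases subsingleton_or_nontrivial E with h | h
    · exact Or.inl h
    · right
      simp only [ContinuousLinearEquiv.refl_symm, ContinuousLinearEquiv.coe_refl,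
        ContinuousLinearMap.nnnorm_id, inv_one]
      exact_mod_cast hc1
  refine ⟨happ.toHomeomorph f hc, ?_, ?_⟩
  · intro x hx
    change f x = x
    have : r - dist x a ≤ 0 := by
      rw [mem_ball, not_lt] at hx
      linarith
    simp [f, φ, max_eq_right this]
  · change f a = b
    simp [f, φ, hr.le, hr.ne']

/-- A connected open set is homogeneous under homeomorphisms supported in it. -/
theorem exists_homeo_of_preconnected [CompleteSpace E] {W : Set E} (hW : IsOpen W)
    (hc : IsPreconnected W) {a b : E} (ha : a ∈ W) (hb : b ∈ W) :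
    ∃ h : E ≃ₜ E, (∀ x, x ∉ W → h x = x) ∧ h a = b := by
  refine hc.induction₂' (fun a b => ∃ h : E ≃ₜ E, (∀ x, x ∉ W → h x = x) ∧ h a = b) ?_ ?_ ha hb
  · intro x hx
    obtain ⟨r, hr, hrW⟩ := Metric.isOpen_iff.1 hW x hx
    filter_upwards [mem_nhdsWithin_of_mem_nhds (ball_mem_nhds x hr)] with y hy
    obtain ⟨h, h1, h2⟩ := exists_homeo_ball hy
    refine ⟨⟨h, fun z hz => h1 z fun hz' => hz (hrW hz'), h2⟩, h.symm, fun z hz => ?_, ?_⟩
    · rw [Homeomorph.symm_apply_eq]
      exact (h1 z fun hz' => hz (hrW hz')).symm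
    · rw [Homeomorph.symm_apply_eq]
      exact h2.symm
  · rintro x y z - - - ⟨h, h1, h2⟩ ⟨k, k1, k2⟩
    refine ⟨h.trans k, fun w hw => ?_, ?_⟩
    · simp [h1 w hw, k1 w hw]
    · simp [h2, k2]

/-- The dragging construction. -/
theorem exists_not_embedding_of_drag [CompleteSpace E] [SecondCountableTopology E]
    {X : Set E} [LocallyCompactSpace X] (y : X)
    (H : ∀ K : Set E, IsCompact K → K ⊆ X → ∀ δ > 0, ∃ W : Set E, IsOpen W ∧ IsPreconnected W ∧
      Disjoint W K ∧ (W ∩ X).Nonempty ∧ (W ∩ ball (y : E) δ).Nonempty) :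
    ∃ f : X → E, Continuous f ∧ Function.Injective f ∧ ¬ IsEmbedding f := by
  let K : CompactExhaustion X := CompactExhaustion.choice X
  have step : ∀ (g : E ≃ₜ E) (m n : ℕ), g y = y → y ∈ K m →
      ∃ (g' : E ≃ₜ E) (m' : ℕ) (x : X), m < m' ∧ (∀ z ∈ K m, g' z = g z) ∧ x ∉ K m ∧ x ∈ K m' ∧
        dist (g' x) y < 1 / ((n : ℝ) + 1) := by
    intro g m n hg hy
    have hε : (0 : ℝ) < 1 / ((n : ℝ) + 1) := by positivity
    obtain ⟨δ, hδ, hδ'⟩ := Metric.continuous_iff.1 g.continuous y _ hε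
    obtain ⟨W, hWo, hWc, hWK, ⟨a, haW, haX⟩, ⟨b, hbW, hby⟩⟩ :=
      H (Subtype.val '' K m) ((K.isCompact m).image continuous_subtype_val)
        (by rintro _ ⟨z, -, rfl⟩; exact z.2) δ hδ
    obtain ⟨h, h1, h2⟩ := exists_homeo_of_preconnected hWo hWc haW hbW
    obtain ⟨k, hk⟩ := K.exists_mem ⟨a, haX⟩
    refine ⟨h.trans g, max (m + 1) k, ⟨a, haX⟩, by omega, ?_, ?_, K.subset (le_max_right _ _) hk, ?_⟩
    · intro z hz
      have : (z : E) ∉ W := fun hzW => Set.disjoint_left.1 hWK hzW ⟨z, hz, rfl⟩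
      simp [h1 z this]
    · intro hz
      exact Set.disjoint_left.1 hWK haW ⟨_, hz, rfl⟩
    · have := hδ' b hby
      rw [hg] at this
      simpa [h2] using this
  have : Nonempty X := ⟨y⟩
  choose! G M P hM hG hP hP' hd using step
  obtain ⟨m0, hm0⟩ := K.exists_mem y
  let s : ℕ → (E ≃ₜ E) × ℕ := fun n => Nat.rec (Homeomorph.refl E, m0)
    (fun n p => (G p.1 p.2 n, M p.1 p.2 n)) n
  have s_succ : ∀ n, s (n + 1) = (G (s n).1 (s n).2 n, M (s n).1 (s n).2 n) := fun n => rfl
  have inv : ∀ n, (s n).1 y = y ∧ y ∈ K (s n).2 := by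
    intro n
    induction n with
    | zero => exact ⟨rfl, hm0⟩
    | succ n ih =>
      rw [s_succ]
      refine ⟨?_, K.subset (hM _ _ n ih.1 ih.2).le ih.2⟩
      exact (hG _ _ n ih.1 ih.2 y ih.2).trans ih.1
  have hmono : StrictMono fun n => (s n).2 := by
    refine strictMono_nat_of_lt_succ fun n => ?_
    rw [s_succ]
    exact hM _ _ n (inv n).1 (inv n).2
  have hstab : ∀ n n', n ≤ n' → ∀ z ∈ K (s n).2, (s n').1 z = (s n).1 z := by
    intro n n' hn z hz
    induction n', hn using Nat.le_induction with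
    | base => rfl
    | succ k hk ih =>
      rw [s_succ, ← ih]
      exact hG _ _ k (inv k).1 (inv k).2 z (K.subset (hmono.monotone hk) hz)
  let f : X → E := fun z => (s (K.find z)).1 z
  have hf : ∀ n, ∀ z ∈ K (s n).2, f z = (s n).1 z := by
    intro n z hz
    have h1 : z ∈ K (s (K.find z)).2 := K.subset (hmono.id_le _) (K.mem_find z)
    rw [← hstab n (max n (K.find z)) (le_max_left _ _) z hz]
    exact (hstab _ _ (le_max_right _ _) z h1).symm
  have hnhds : ∀ z : X, ∃ n, K (s n).2 ∈ 𝓝 z := by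
    intro z
    obtain ⟨n, hn⟩ := K.exists_mem_nhds z
    exact ⟨n, mem_of_superset hn (K.subset (hmono.id_le n))⟩
  refine ⟨f, ?_, ?_, ?_⟩
  · rw [continuous_iff_continuousAt]
    intro z
    obtain ⟨n, hn⟩ := hnhds z
    have hc : ContinuousAt (fun w : X => (s n).1 w) z :=
      ((s n).1.continuous.comp continuous_subtype_val).continuousAt
    refine hc.congr ?_
    filter_upwards [hn] with w hw
    exact (hf n w hw).symm
  · intro z w hzw
    obtain ⟨n, hn⟩ := K.exists_mem z
    obtain ⟨k, hk⟩ := K.exists_mem w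
    have hz : z ∈ K (s (max n k)).2 := K.subset ((le_max_left n k).trans (hmono.id_le _)) hn
    have hw : w ∈ K (s (max n k)).2 := K.subset ((le_max_right n k).trans (hmono.id_le _)) hk
    rw [hf _ z hz, hf _ w hw] at hzw
    exact Subtype.ext ((s (max n k)).1.injective hzw)
  · intro hemb
    let x : ℕ → X := fun n => P (s n).1 (s n).2 n
    have hx1 : ∀ n, x n ∉ K (s n).2 := fun n => hP _ _ n (inv n).1 (inv n).2
    have hx2 : ∀ n, dist (f (x n)) y < 1 / ((n : ℝ) + 1) := by
      intro n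
      have h1 : x n ∈ K (s (n + 1)).2 := hP' _ _ n (inv n).1 (inv n).2
      rw [hf (n + 1) _ h1]
      exact hd _ _ n (inv n).1 (inv n).2
    have hfy : f y = y := by
      rw [hf 0 y (inv 0).2]
      exact (inv 0).1
    have ht : Tendsto (fun n => f (x n)) atTop (𝓝 (f y)) := by
      rw [hfy, tendsto_iff_dist_tendsto_zero]
      exact squeeze_zero (fun _ => dist_nonneg) (fun n => (hx2 n).le)
        tendsto_one_div_add_atTop_nhds_zero_nat
    have ht' : Tendsto x atTop (𝓝 y) := hemb.tendsto_nhds_iff.2 ht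
    obtain ⟨n, hn⟩ := hnhds y
    obtain ⟨k, hk1, hk2⟩ := ((ht'.eventually hn).and (eventually_ge_atTop n)).exists
    exact hx1 k (K.subset (hmono.monotone hk2) hk1)

end Pool.Agent.Lib.MP_fef6c2_gt
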