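import Mathlib
import Pool.Agent.Lib.MP_fef6c2_gt.Drag

set_option autoImplicit false

open Set Metric Filter Topology

namespace Pool.Agent.Lib.MP_fef6c2_gt

variable {E : Type*} [NormedAddCommGroup E] [NormedSpace ℝ E]

/-- The outside of a closed ball is preconnected in dimension at least two. -/
theorem isPreconnected_outside (h : 1 < Module.rank ℝ E) {R : ℝ} (hR : 0 ≤ R) :
    IsPreconnected {x : E | R < ‖x‖} := by
  have h1 : IsPreconnected ((Ioi R) ×ˢ (sphere (0 : E) 1)) :=
    isPreconnected_Ioi.prod (isPreconnected_sphere h 0 1)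
  have h2 := h1.image (fun p : ℝ × E => p.1 • p.2) (by fun_prop)
  convert h2 using 1
  ext x
  simp only [mem_ofPred_eq, mem_image, mem_prod, mem_Ioi, mem_sphere_iff_norm, sub_zero,
    Prod.exists]
  constructor
  · intro hx
    have hx0 : 0 < ‖x‖ := lt_of_le_of_lt hR hx
    refine ⟨‖x‖, ‖x‖⁻¹ • x, ⟨hx, ?_⟩, ?_⟩
    · rw [norm_smul, norm_inv, norm_norm, inv_mul_cancel₀ hx0.ne']
    · rw [smul_smul, mul_inv_cancel₀ hx0.ne', one_smul]
  · rintro ⟨t, u, ⟨ht, hu⟩, rfl⟩
    rw [norm_smul, hu, mul_one, Real.norm_eq_abs, abs_of_pos (lt_of_le_of_lt hR ht)]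
    exact ht

/-- If for each compact `K ⊆ X` one open connected set missing `K` contains the complement of `X`
and meets `X`, then `X` is open or not rigid. -/
theorem not_rigid_of_cover [CompleteSpace E] [SecondCountableTopology E]
    {X : Set E} [LocallyCompactSpace X] (hno : ¬ IsOpen X)
    (H : ∀ K : Set E, IsCompact K → K ⊆ X → ∃ W : Set E, IsOpen W ∧ IsPreconnected W ∧
      Disjoint W K ∧ (W ∩ X).Nonempty ∧ Xᶜ ⊆ W) :
    ∃ f : X → E, Continuous f ∧ Function.Injective f ∧ ¬ IsEmbedding f := by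
  rw [Metric.isOpen_iff] at hno
  push Not at hno
  obtain ⟨y, hy, hy'⟩ := hno
  refine exists_not_embedding_of_drag ⟨y, hy⟩ fun K hK hKX δ hδ => ?_
  obtain ⟨W, h1, h2, h3, h4, h5⟩ := H K hK hKX
  obtain ⟨b, hb, hbX⟩ := Set.not_subset.1 (hy' δ hδ)
  exact ⟨W, h1, h2, h3, h4, b, h5 hbX, hb⟩

/-- Complement connected in the space itself: not rigid unless closed with bounded complement. -/
theorem not_rigid_of_compl_connected [ProperSpace E] (h : 1 < Module.rank ℝ E)
    {X : Set E} [LocallyCompactSpace X] (hns : IsConnected Xᶜ) (hnc : ¬ IsCompact X)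
    (hno : ¬ IsOpen X) (hn : ¬ (IsClosed X ∧ Bornology.IsBounded Xᶜ)) :
    ∃ f : X → E, Continuous f ∧ Function.Injective f ∧ ¬ IsEmbedding f := by
  refine not_rigid_of_cover hno fun K hK hKX => ?_
  obtain ⟨c, hc⟩ := hns.nonempty
  have hsub : Xᶜ ⊆ Kᶜ := compl_subset_compl.2 hKX
  have hW : Xᶜ ⊆ connectedComponentIn Kᶜ c :=
    hns.isPreconnected.subset_connectedComponentIn hc hsub
  have hWo : IsOpen (connectedComponentIn Kᶜ c) := hK.isClosed.isOpen_compl.connectedComponentIn
  refine ⟨connectedComponentIn Kᶜ c, hWo, isPreconnected_connectedComponentIn, ?_, ?_, hW⟩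
  · exact Set.disjoint_left.2 fun z hz => connectedComponentIn_subset _ _ hz
  · by_contra hne
    have hWX : connectedComponentIn Kᶜ c ⊆ Xᶜ := fun z hz hzX => hne ⟨z, hz, hzX⟩
    have heq : connectedComponentIn Kᶜ c = Xᶜ := Subset.antisymm hWX hW
    have hcl : IsClosed X := by
      rw [← isOpen_compl_iff, ← heq]
      exact hWo
    refine hn ⟨hcl, ?_⟩
    by_contra hub
    obtain ⟨R, hR0, hR⟩ := hK.isBounded.subset_closedBall_lt 0 (0 : E)
    have : ∃ p ∈ Xᶜ, R < ‖p‖ := by
      by_contra hcon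
      push Not at hcon
      exact hub ((isBounded_closedBall (x := (0 : E)) (r := R)).subset fun p hp => by
        simpa using hcon p hp)
    obtain ⟨p, hp, hpR⟩ := this
    have hout : {x : E | R < ‖x‖} ⊆ Kᶜ := fun x hx hxK => by
      have := hR hxK
      simp only [mem_closedBall, dist_zero_right] at this
      exact absurd hx (not_lt.2 this)
    have h1 : {x : E | R < ‖x‖} ⊆ connectedComponentIn Kᶜ p :=
      (isPreconnected_outside h hR0.le).subset_connectedComponentIn hpR hout
    rw [← connectedComponentIn_eq (hW hp), heq] at h1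
    refine hnc (Metric.isCompact_of_isClosed_isBounded hcl
      ((isBounded_closedBall (x := (0 : E)) (r := R)).subset fun x hx => ?_))
    by_contra hx'
    simp only [mem_closedBall, dist_zero_right, not_le] at hx'
    exact h1 hx' hx

/-- Complement connected in the one-point compactification: not rigid. -/
theorem not_rigid_of_sphere_connected [ProperSpace E] (h : 1 < Module.rank ℝ E)
    {X : Set E} [LocallyCompactSpace X]
    (hns : IsConnected ((fun x : E => (x : OnePoint E)) '' X)ᶜ) (hnc : ¬ IsCompact X)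
    (hno : ¬ IsOpen X) :
    ∃ f : X → E, Continuous f ∧ Function.Injective f ∧ ¬ IsEmbedding f := by
  refine not_rigid_of_cover hno fun K hK hKX => ?_
  obtain ⟨R, hR0, hR⟩ := hK.isBounded.subset_closedBall_lt 0 (0 : E)
  have : Nontrivial E := rank_pos_iff_nontrivial.1 (lt_trans zero_lt_one h)
  obtain ⟨p, hp⟩ := NormedSpace.exists_lt_norm ℝ E R
  have hout : {x : E | R < ‖x‖} ⊆ Kᶜ := fun x hx hxK => by
    have := hR hxK
    simp only [mem_closedBall, dist_zero_right] at this
    exact absurd hx (not_lt.2 this)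
  have h1 : {x : E | R < ‖x‖} ⊆ connectedComponentIn Kᶜ p :=
    (isPreconnected_outside h hR0.le).subset_connectedComponentIn hp hout
  set W := connectedComponentIn Kᶜ p with hWdef
  have hKo : IsOpen Kᶜ := hK.isClosed.isOpen_compl
  have hWo : IsOpen W := hKo.connectedComponentIn
  have hWc : IsCompact Wᶜ := by
    refine Metric.isCompact_of_isClosed_isBounded hWo.isClosed_compl
      ((isBounded_closedBall (x := (0 : E)) (r := R)).subset fun x hx => ?_)
    by_contra hx'
    simp only [mem_closedBall, dist_zero_right, not_le] at hx'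
    exact hx (h1 hx')
  have hV : IsOpen (Kᶜ \ W) := by
    rw [isOpen_iff_mem_nhds]
    intro x hx
    have hxo : IsOpen (connectedComponentIn Kᶜ x) := hKo.connectedComponentIn
    refine mem_of_superset (hxo.mem_nhds (mem_connectedComponentIn hx.1)) fun z hz => ?_
    refine ⟨connectedComponentIn_subset _ _ hz, fun hzW => hx.2 ?_⟩
    have e1 := connectedComponentIn_eq hz
    have e2 := connectedComponentIn_eq hzW
    rw [hWdef, e2, ← e1]
    exact mem_connectedComponentIn hx.1
  have hU1 : IsOpen ((fun x : E => (x : OnePoint E)) '' Wᶜ)ᶜ :=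
    (hWc.image OnePoint.continuous_coe).isClosed.isOpen_compl
  have hU2 : IsOpen ((fun x : E => (x : OnePoint E)) '' (Kᶜ \ W)) :=
    OnePoint.isOpen_image_coe.2 hV
  have hsub : ((fun x : E => (x : OnePoint E)) '' X)ᶜ ⊆ ((fun x : E => (x : OnePoint E)) '' Wᶜ)ᶜ := by
    refine hns.isPreconnected.subset_left_of_subset_union hU1 hU2 ?_ ?_ ⟨OnePoint.infty, ?_, ?_⟩
    · refine Set.disjoint_left.2 ?_
      rintro _ hq ⟨z, hz, rfl⟩
      exact hq ⟨z, hz.2, rfl⟩
    · intro q hq
      by_cases hq' : q ∈ (fun x : E => (x : OnePoint E)) '' Wᶜ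
      · obtain ⟨z, hz, rfl⟩ := hq'
        exact Or.inr ⟨z, ⟨fun hzK => hq ⟨z, hKX hzK, rfl⟩, hz⟩, rfl⟩
      · exact Or.inl hq'
    · rintro ⟨z, -, hz⟩
      exact OnePoint.coe_ne_infty z hz
    · rintro ⟨z, -, hz⟩
      exact OnePoint.coe_ne_infty z hz
  have hXW : Xᶜ ⊆ W := by
    intro z hz
    by_contra hzW
    refine hsub ?_ ⟨z, hzW, rfl⟩
    rintro ⟨w, hw, hwz⟩
    exact hz (OnePoint.coe_injective hwz ▸ hw)
  refine ⟨W, hWo, isPreconnected_connectedComponentIn, ?_, ?_, hXW⟩
  · exact Set.disjoint_left.2 fun z hz => connectedComponentIn_subset _ _ hz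
  · by_contra hne
    have hWX : W ⊆ Xᶜ := fun z hz hzX => hne ⟨z, hz, hzX⟩
    have heq : W = Xᶜ := Subset.antisymm hWX hXW
    rw [heq, compl_compl] at hWc
    exact hnc hWc

/-- A closed disconnected set with bounded complement is not rigid. -/
theorem not_rigid_of_disconnected [ProperSpace E] (h : 1 < Module.rank ℝ E)
    {X : Set E} (hcl : IsClosed X) (hb : Bornology.IsBounded Xᶜ) (hX : ¬ IsPreconnected X) :
    ∃ f : X → E, Continuous f ∧ Function.Injective f ∧ ¬ IsEmbedding f := by
  classical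
  obtain ⟨R, hR0, hR⟩ := hb.subset_closedBall_lt 0 (0 : E)
  have hout : {x : E | R < ‖x‖} ⊆ X := fun x hx => by
    by_contra hxX
    have := hR hxX
    simp only [mem_closedBall, dist_zero_right] at this
    exact absurd hx (not_lt.2 this)
  have key : ∃ A B : Set E, IsClosed A ∧ IsClosed B ∧ Disjoint A B ∧ X = A ∪ B ∧ B.Nonempty ∧
      {x : E | R < ‖x‖} ⊆ A := by
    rw [isPreconnected_iff_subset_of_fully_disjoint_closed hcl] at hX
    push Not at hX
    obtain ⟨u, v, hu, hv, huv, hd, h1, h2⟩ := hX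
    have hX' : X = (X ∩ u) ∪ (X ∩ v) := by
      rw [← inter_union_distrib_left, inter_eq_left.2 huv]
    have hd' : Disjoint (X ∩ u) (X ∩ v) := hd.mono inter_subset_right inter_subset_right
    rcases (isPreconnected_iff_subset_of_disjoint_closed.1 (isPreconnected_outside h hR0.le)) u v
      hu hv (hout.trans huv) (by rw [hd.inter_eq, inter_empty]) with h3 | h3
    · refine ⟨X ∩ u, X ∩ v, hcl.inter hu, hcl.inter hv, hd', hX', ?_, subset_inter hout h3⟩
      obtain ⟨z, hz, hz'⟩ := Set.not_subset.1 h1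
      exact ⟨z, hz, (huv hz).resolve_left hz'⟩
    · refine ⟨X ∩ v, X ∩ u, hcl.inter hv, hcl.inter hu, hd'.symm, by rw [union_comm]; exact hX',
        ?_, subset_inter hout h3⟩
      obtain ⟨z, hz, hz'⟩ := Set.not_subset.1 h2
      exact ⟨z, hz, (huv hz).resolve_right hz'⟩
  obtain ⟨A, B, hA, hB, hAB, hXAB, hBne, hoA⟩ := key
  have hBc : IsCompact B := by
    refine Metric.isCompact_of_isClosed_isBounded hB
      ((isBounded_closedBall (x := (0 : E)) (r := R)).subset fun x hx => ?_)
    by_contra hx'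
    simp only [mem_closedBall, dist_zero_right, not_le] at hx'
    exact Set.disjoint_left.1 hAB (hoA hx') hx
  have : Nontrivial E := rank_pos_iff_nontrivial.1 (lt_trans zero_lt_one h)
  obtain ⟨c, hc⟩ := NormedSpace.exists_lt_norm ℝ E R
  have hcB : c ∉ B := fun hcB => Set.disjoint_left.1 hAB (hoA hc) hcB
  obtain ⟨b, hbB, hbmin⟩ := hBc.exists_isMinOn hBne
    (f := fun z => ‖z - c‖) (by fun_prop)
  set d := ‖b - c‖ with hd
  have hd0 : 0 < d := norm_pos_iff.2 (sub_ne_zero.2 fun e => hcB (e ▸ hbB))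
  let ψ : E → E := fun z => c + (d / (1 + ‖z‖)) • z
  have hψc : Continuous ψ := by
    refine continuous_const.add (Continuous.smul (continuous_const.div (by fun_prop) ?_)
      continuous_id)
    intro z
    positivity
  have hψn : ∀ z, ‖ψ z - c‖ = d * ‖z‖ / (1 + ‖z‖) := by
    intro z
    simp only [ψ, add_sub_cancel_left, norm_smul, Real.norm_eq_abs]
    rw [abs_of_pos (by positivity)]
    ring
  have hψlt : ∀ z, ‖ψ z - c‖ < d := by
    intro z
    rw [hψn, div_lt_iff₀ (by positivity)]
    nlinarith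
  have hψi : Function.Injective ψ := by
    intro z w hzw
    have h1 : d * ‖z‖ / (1 + ‖z‖) = d * ‖w‖ / (1 + ‖w‖) := by rw [← hψn, ← hψn, hzw]
    have h2 : ‖z‖ = ‖w‖ := by
      rw [div_eq_div_iff (by positivity) (by positivity)] at h1
      have : d * (‖z‖ - ‖w‖) = 0 := by linarith
      rcases mul_eq_zero.1 this with h | h
      · exact absurd h hd0.ne'
      · linarith
    simp only [ψ, add_right_inj, h2] at hzw
    exact smul_right_injective E (by positivity : d / (1 + ‖w‖) ≠ 0) hzw
  let f : X → E := fun z => if (z : E) ∈ B then (z : E) else ψ z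
  have hclopen : IsClopen {z : X | (z : E) ∈ B} := by
    refine ⟨hB.preimage continuous_subtype_val, ?_⟩
    have : {z : X | (z : E) ∈ B} = (Subtype.val ⁻¹' A)ᶜ := by
      ext z
      simp only [mem_ofPred_eq, mem_compl_iff, mem_preimage]
      constructor
      · exact fun hz hzA => Set.disjoint_left.1 hAB hzA hz
      · intro hz
        have hz2 : (z : E) ∈ A ∪ B := hXAB ▸ z.2
        exact hz2.resolve_left hz
    rw [this]
    exact (hA.preimage continuous_subtype_val).isOpen_compl
  have hfc : Continuous f := by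
    refine Continuous.if ?_ continuous_subtype_val (hψc.comp continuous_subtype_val)
    intro a ha
    rw [hclopen.frontier_eq] at ha
    exact absurd ha (notMem_empty a)
  refine ⟨f, hfc, ?_, ?_⟩
  · intro z w hzw
    simp only [f] at hzw
    split_ifs at hzw with h1 h2 h2
    · exact Subtype.ext hzw
    · exfalso
      have := hbmin h1
      simp only [mem_ofPred_eq] at this
      rw [hzw] at this
      exact absurd (hψlt w) (not_lt.2 this)
    · exfalso
      have := hbmin h2
      simp only [mem_ofPred_eq] at this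
      rw [← hzw] at this
      exact absurd (hψlt z) (not_lt.2 this)
    · exact Subtype.ext (hψi hzw)
  · intro hemb
    have hbX : b ∈ X := hXAB ▸ Or.inr hbB
    have hn : ∀ n : ℕ, R < ‖(((n : ℝ) + R + 1) / d) • (b - c)‖ := by
      intro n
      rw [norm_smul, ← hd, Real.norm_eq_abs, abs_of_pos (by positivity), div_mul_cancel₀ _ hd0.ne']
      have : (0 : ℝ) ≤ n := n.cast_nonneg
      linarith
    let x : ℕ → X := fun n => ⟨(((n : ℝ) + R + 1) / d) • (b - c), hout (hn n)⟩
    have hxB : ∀ n, (x n : E) ∉ B := fun n => Set.disjoint_left.1 hAB (hoA (hn n))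
    have hfx : ∀ n, f (x n) = b - (1 / ((n : ℝ) + R + 2)) • (b - c) := by
      intro n
      have e1 : f (x n) = ψ (x n) := if_neg (hxB n)
      have e2 : ‖(x n : E)‖ = (n : ℝ) + R + 1 := by
        change ‖(((n : ℝ) + R + 1) / d) • (b - c)‖ = _
        rw [norm_smul, ← hd, Real.norm_eq_abs, abs_of_pos (by positivity),
          div_mul_cancel₀ _ hd0.ne']
      rw [e1]
      change c + (d / (1 + ‖(x n : E)‖)) • ((((n : ℝ) + R + 1) / d) • (b - c)) = _
      rw [e2, smul_smul]
      have e3 : d / (1 + ((n : ℝ) + R + 1)) * (((n : ℝ) + R + 1) / d)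
          = 1 - 1 / ((n : ℝ) + R + 2) := by
        field_simp
        ring
      rw [e3, sub_smul, one_smul]
      abel
    have hfb : f ⟨b, hbX⟩ = b := if_pos hbB
    have ht : Tendsto (fun n => f (x n)) atTop (𝓝 (f ⟨b, hbX⟩)) := by
      rw [hfb]
      simp only [hfx]
      have h0 : Tendsto (fun n : ℕ => 1 / ((n : ℝ) + R + 2)) atTop (𝓝 0) := by
        simp only [one_div]
        refine tendsto_inv_atTop_zero.comp ?_
        exact tendsto_atTop_add_const_right _ _
          (tendsto_atTop_add_const_right _ _ tendsto_natCast_atTop_atTop)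
      have := (h0.smul_const (b - c)).const_sub b
      simpa using this
    have ht' : Tendsto x atTop (𝓝 ⟨b, hbX⟩) := hemb.tendsto_nhds_iff.2 ht
    obtain ⟨n, hn'⟩ := (ht'.eventually (hclopen.isOpen.mem_nhds (show (⟨b, hbX⟩ : X) ∈
      {z : X | (z : E) ∈ B} from hbB))).exists
    exact hxB n hn'

end Pool.Agent.Lib.MP_fef6c2_gt
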