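import Mathlib

set_option autoImplicit false

open Set Metric Filter Topology Complex

namespace Pool.Agent.Lib.MP_fef6c2_gt

/-- The unit circle of the complex plane. -/
abbrev S1 : Type := sphere (0 : ℂ) 1

theorem S1.norm_coe (u : S1) : ‖(u : ℂ)‖ = 1 := by simp

/-- `g` has a continuous logarithm on the circle. -/
def HasLog (g : S1 → ℂ) : Prop := ∃ L : S1 → ℂ, Continuous L ∧ ∀ u, exp (L u) = g u

theorem HasLog.const {c : ℂ} (hc : c ≠ 0) : HasLog fun _ => c :=
  ⟨fun _ => log c, continuous_const, fun _ => exp_log hc⟩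

theorem HasLog.mul {g k : S1 → ℂ} (hg : HasLog g) (hk : HasLog k) : HasLog fun u => g u * k u := by
  obtain ⟨L, hL, hL'⟩ := hg
  obtain ⟨M, hM, hM'⟩ := hk
  exact ⟨fun u => L u + M u, hL.add hM, fun u => by rw [exp_add, hL', hM']⟩

theorem HasLog.div {g k : S1 → ℂ} (hg : HasLog g) (hk : HasLog k) : HasLog fun u => g u / k u := by
  obtain ⟨L, hL, hL'⟩ := hg
  obtain ⟨M, hM, hM'⟩ := hk
  exact ⟨fun u => L u - M u, hL.sub hM, fun u => by rw [exp_sub, hL', hM']⟩

theorem HasLog.congr {g k : S1 → ℂ} (hg : HasLog g) (h : ∀ u, g u = k u) : HasLog k := by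
  obtain ⟨L, hL, hL'⟩ := hg
  exact ⟨L, hL, fun u => (hL' u).trans (h u)⟩

theorem hasLog_of_near_one {g : S1 → ℂ} (hg : Continuous g) (h : ∀ u, ‖g u - 1‖ < 1) :
    HasLog g := by
  have hs : ∀ u, g u ∈ slitPlane := fun u => by
    have := mem_slitPlane_of_norm_lt_one (h u)
    simpa using this
  exact ⟨fun u => log (g u), hg.clog hs, fun u => exp_log (slitPlane_ne_zero (hs u))⟩

/-- Homotopy invariance over a preconnected parameter space. -/
theorem HasLog.homotopy {T : Type*} [TopologicalSpace T] [PreconnectedSpace T]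
    (H : T → S1 → ℂ) (hH : Continuous fun p : T × S1 => H p.1 p.2) (h0 : ∀ t u, H t u ≠ 0)
    (a b : T) (ha : HasLog (H a)) : HasLog (H b) := by
  have hc : ∀ t, Continuous (H t) := fun t => hH.comp (Continuous.prodMk_right t)
  have key : ∀ a b : T, HasLog fun u => H b u / H a u := by
    refine PreconnectedSpace.induction₂' (fun a b => HasLog fun u => H b u / H a u) ?_ ?_
    · intro x
      have h1 : ∀ᶠ y in 𝓝 x, ∀ u ∈ (univ : Set S1), ‖H y u / H x u - 1‖ < 1 := by
        refine isCompact_univ.eventually_forall_of_forall_eventually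
          (P := fun y u => ‖H y u / H x u - 1‖ < 1) fun u _ => ?_
        have h2 : Continuous fun p : T × S1 => ‖H p.1 p.2 / H x p.2 - 1‖ :=
          ((hH.div ((hc x).comp continuous_snd) fun p => h0 x p.2).sub continuous_const).norm
        refine h2.continuousAt.eventually_lt continuousAt_const ?_
        simp [div_self (h0 x u)]
      filter_upwards [h1] with y hy
      have h3 : HasLog fun u => H y u / H x u :=
        hasLog_of_near_one ((hc y).div (hc x) (h0 x)) fun u => hy u (mem_univ u)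
      refine ⟨h3, ((HasLog.const one_ne_zero).div h3).congr fun u => ?_⟩
      rw [one_div, inv_div]
    · refine ⟨fun x y z h1 h2 => (h1.mul h2).congr fun u => ?_⟩
      have := h0 x u
      have := h0 y u
      field_simp
  refine ((key a b).mul ha).congr fun u => ?_
  have := h0 a u
  field_simp

theorem HasLog.homotopy_on {T : Type*} [TopologicalSpace T] {s : Set T} (hs : IsPreconnected s)
    (H : T → S1 → ℂ) (hH : Continuous fun p : s × S1 => H p.1 p.2)
    (h0 : ∀ t ∈ s, ∀ u, H t u ≠ 0) {a b : T} (has : a ∈ s) (hbs : b ∈ s)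
    (ha : HasLog (H a)) : HasLog (H b) := by
  have : PreconnectedSpace s := Subtype.preconnectedSpace hs
  exact HasLog.homotopy (T := s) (fun t u => H t u) hH (fun t u => h0 t t.2 u) ⟨a, has⟩ ⟨b, hbs⟩ ha

/-- An odd function has no continuous logarithm. -/
theorem not_hasLog_of_odd {g : S1 → ℂ} (h : ∀ u, g (-u) = -g u) : ¬ HasLog g := by
  rintro ⟨L, hL, hL'⟩
  have hconn : PreconnectedSpace S1 :=
    Subtype.preconnectedSpace (isPreconnected_sphere (by simp) 0 1)
  let D : S1 → ℂ := fun u => L (-u) - L u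
  have hD : Continuous D := (hL.comp continuous_neg).sub hL
  have hDe : ∀ u, exp (D u) = -1 := by
    intro u
    have h0 : g u ≠ 0 := by rw [← hL']; exact exp_ne_zero _
    simp only [D]
    rw [exp_sub, hL', hL', h, neg_div, div_self h0]
  have hconst : ∀ u v, D u = D v := by
    refine PreconnectedSpace.induction₂' (fun u v => D u = D v) ?_
      ⟨fun _ _ _ h1 h2 => h1.trans h2⟩
    intro x
    have h1 : ∀ᶠ y in 𝓝 x, dist (D y) (D x) < 1 :=
      Metric.tendsto_nhds.1 hD.continuousAt 1 one_pos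
    filter_upwards [h1] with y hy
    have h2 : exp (D y) = exp (D x) := by rw [hDe, hDe]
    obtain ⟨n, hn⟩ := exp_eq_exp_iff_exists_int.1 h2
    have h3 : n = 0 := by
      by_contra hn0
      rw [dist_eq_norm, hn, add_sub_cancel_left, norm_mul, norm_mul, norm_mul, norm_I,
        Complex.norm_intCast, Complex.norm_real, Real.norm_eq_abs, abs_of_pos Real.pi_pos] at hy
      have h4 : (1 : ℝ) ≤ |(n : ℝ)| := by
        rw [← Int.cast_abs]
        exact_mod_cast Int.one_le_abs hn0
      have h5 := Real.pi_gt_three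
      simp only [Complex.norm_ofNat, mul_one] at hy
      nlinarith
    rw [h3] at hn
    simp only [Int.cast_zero, zero_mul, add_zero] at hn
    exact ⟨hn.symm, hn⟩
  let u : S1 := ⟨1, by simp⟩
  have h1 := hconst u (-u)
  have h2 : D (-u) = -D u := by simp [D]
  have h3 : D u = 0 := by
    rw [h2] at h1
    linear_combination h1 / 2
  have h4 := hDe u
  rw [h3, exp_zero] at h4
  norm_num at h4

/-- Borsuk's argument: an injective map does not kill a small loop around a point. -/
theorem not_hasLog_small_loop {F : ℂ → ℂ} {z : ℂ} {ρ : ℝ} (hρ : 0 < ρ)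
    (hc : ContinuousOn F (closedBall z ρ)) (hi : InjOn F (closedBall z ρ)) :
    ¬ HasLog fun u => F (z + ρ * u) - F z := by
  intro h
  have m1 : ∀ s ∈ Icc (0 : ℝ) 1, ∀ u : S1, z + (ρ * (1 - s / 2) : ℝ) * (u : ℂ) ∈ closedBall z ρ := by
    intro s hs u
    rw [mem_closedBall, dist_eq_norm, add_sub_cancel_left, norm_mul, S1.norm_coe, mul_one,
      Complex.norm_real, Real.norm_eq_abs, abs_of_nonneg (by nlinarith [hs.1, hs.2])]
    nlinarith [hs.1, hs.2]
  have m2 : ∀ s ∈ Icc (0 : ℝ) 1, ∀ u : S1, z - (ρ * (s / 2) : ℝ) * (u : ℂ) ∈ closedBall z ρ := by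
    intro s hs u
    rw [mem_closedBall, dist_eq_norm, sub_sub_cancel_left, norm_neg, norm_mul, S1.norm_coe, mul_one,
      Complex.norm_real, Real.norm_eq_abs, abs_of_nonneg (by nlinarith [hs.1, hs.2])]
    nlinarith [hs.1, hs.2]
  have h1 := HasLog.homotopy_on (isPreconnected_Icc (a := (0 : ℝ)) (b := 1))
    (fun s u => F (z + (ρ * (1 - s / 2) : ℝ) * (u : ℂ)) - F (z - (ρ * (s / 2) : ℝ) * (u : ℂ)))
    (by
      refine Continuous.sub (hc.comp_continuous (by fun_prop) fun p => m1 _ p.1.2 _)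
        (hc.comp_continuous (by fun_prop) fun p => m2 _ p.1.2 _))
    (by
      intro s hs u h0
      have h2 := hi (m1 s hs u) (m2 s hs u) (sub_eq_zero.1 h0)
      have h3 : (ρ : ℂ) * (u : ℂ) = 0 := by
        push_cast at h2
        linear_combination h2
      have h4 := congrArg norm h3
      rw [norm_mul, S1.norm_coe, mul_one, Complex.norm_real, norm_zero, Real.norm_eq_abs,
        abs_of_pos hρ] at h4
      exact hρ.ne' h4)
    (left_mem_Icc.2 zero_le_one) (right_mem_Icc.2 zero_le_one)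
    (h.congr fun u => by simp)
  refine not_hasLog_of_odd (fun u => ?_) h1
  simp only [coe_neg_sphere, mul_neg, sub_neg_eq_add, neg_sub]
  have e : (ρ * (1 - 1 / 2) : ℝ) = ρ * (1 / 2) := by ring
  rw [e, ← sub_eq_add_neg]

/-- The jump across a large circle. -/
theorem jump {F : ℂ → ℂ} {R : ℝ} (hR : 1 < R) (hc : ContinuousOn F {p | R - 1 < ‖p‖})
    (hi : InjOn F {p | R - 1 < ‖p‖}) {z : ℂ} (hz : R < ‖z‖) :
    ¬ HasLog fun u => (F (R * u) - F (((R - 1 / 2) / ‖z‖ : ℝ) * z)) / (F (R * u) - F z) := by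
  intro h
  have hz0 : 0 < ‖z‖ := by linarith
  have hzΩ : z ∈ {p : ℂ | R - 1 < ‖p‖} := by
    change R - 1 < ‖z‖
    linarith
  have nrm : ∀ (t : ℝ) (u : S1), 0 ≤ t → ‖(t : ℂ) * (u : ℂ)‖ = t := by
    intro t u ht
    rw [norm_mul, S1.norm_coe, mul_one, Complex.norm_real, Real.norm_eq_abs, abs_of_nonneg ht]
  have nrz : ∀ (t : ℝ), 0 ≤ t → ‖((t / ‖z‖ : ℝ) : ℂ) * z‖ = t := by
    intro t ht
    rw [norm_mul, Complex.norm_real, Real.norm_eq_abs, abs_of_nonneg (by positivity),
      div_mul_cancel₀ _ hz0.ne']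
  have mR : ∀ u : S1, (R : ℂ) * (u : ℂ) ∈ {p : ℂ | R - 1 < ‖p‖} := by
    intro u
    change R - 1 < ‖(R : ℂ) * (u : ℂ)‖
    rw [nrm R u (by linarith)]
    linarith
  have hden : ∀ u : S1, F (R * u) - F z ≠ 0 := by
    intro u h0
    have h2 := congrArg norm (hi (mR u) hzΩ (sub_eq_zero.1 h0))
    rw [nrm R u (by linarith)] at h2
    linarith
  have hdenc : Continuous fun u : S1 => F (R * u) - F z :=
    (hc.comp_continuous (by fun_prop) mR).sub continuous_const
  -- step 1: expand the circle and move the inner point to `z`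
  have m1 : ∀ t ∈ Icc (R - 1 / 2) ‖z‖, ∀ u : S1,
      ((t + 1 / 2 : ℝ) : ℂ) * (u : ℂ) ∈ {p : ℂ | R - 1 < ‖p‖} := by
    intro t ht u
    change R - 1 < ‖((t + 1 / 2 : ℝ) : ℂ) * (u : ℂ)‖
    rw [nrm _ u (by linarith [ht.1])]
    linarith [ht.1]
  have m2 : ∀ t ∈ Icc (R - 1 / 2) ‖z‖, ((t / ‖z‖ : ℝ) : ℂ) * z ∈ {p : ℂ | R - 1 < ‖p‖} := by
    intro t ht
    change R - 1 < ‖((t / ‖z‖ : ℝ) : ℂ) * z‖
    rw [nrz _ (by linarith [ht.1])]
    linarith [ht.1]
  have h1 := HasLog.homotopy_on (isPreconnected_Icc (a := R - 1 / 2) (b := ‖z‖))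
    (fun t u => (F (((t + 1 / 2 : ℝ) : ℂ) * (u : ℂ)) - F (((t / ‖z‖ : ℝ) : ℂ) * z)) /
      (F (R * u) - F z))
    (by
      refine Continuous.div (Continuous.sub
        (hc.comp_continuous (by fun_prop) fun p => m1 _ p.1.2 _)
        (hc.comp_continuous (by fun_prop) fun p => m2 _ p.1.2))
        (hdenc.comp continuous_snd) fun p => hden _)
    (by
      intro t ht u
      refine div_ne_zero (fun h0 => ?_) (hden u)
      have h2 := congrArg norm (hi (m1 t ht u) (m2 t ht) (sub_eq_zero.1 h0))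
      rw [nrm _ u (by linarith [ht.1]), nrz _ (by linarith [ht.1])] at h2
      linarith)
    (left_mem_Icc.2 (by linarith)) (right_mem_Icc.2 (by linarith))
    (h.congr fun u => by
      have e : (R - 1 / 2 + 1 / 2 : ℝ) = R := by ring
      rw [e])
  -- step 2: the function with the hole filled in
  let π : ℂ → ℂ := fun p => ((R / ‖p‖ : ℝ) : ℂ) * p
  have hπn : ∀ p : ℂ, R ≤ ‖p‖ → ‖π p‖ = R := by
    intro p hp
    have hp0 : 0 < ‖p‖ := by linarith
    simp only [π]
    rw [norm_mul, Complex.norm_real, Real.norm_eq_abs, abs_of_nonneg (by positivity),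
      div_mul_cancel₀ _ hp0.ne']
  have hπc : ContinuousOn π {p | R ≤ ‖p‖} := by
    refine ContinuousOn.mul (continuous_ofReal.comp_continuousOn
      (ContinuousOn.div continuousOn_const continuous_norm.continuousOn fun p hp => ?_))
      continuousOn_id
    have : R ≤ ‖p‖ := hp
    linarith
  have hπm : MapsTo π {p | R ≤ ‖p‖} {p : ℂ | R - 1 < ‖p‖} := by
    intro p hp
    change R - 1 < ‖π p‖
    rw [hπn p hp]
    linarith
  have hQc : ContinuousOn (fun p => F (π p) - F z) {p | R ≤ ‖p‖} :=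
    (hc.comp hπc hπm).sub continuousOn_const
  have hQ0 : ∀ p : ℂ, R ≤ ‖p‖ → F (π p) - F z ≠ 0 := by
    intro p hp h0
    have h2 := congrArg norm (hi (hπm hp) hzΩ (sub_eq_zero.1 h0))
    rw [hπn p hp] at h2
    linarith
  have hsub : {p : ℂ | R ≤ ‖p‖} ⊆ {p : ℂ | R - 1 < ‖p‖} := by
    intro p hp
    have : R ≤ ‖p‖ := hp
    change R - 1 < ‖p‖
    linarith
  let G : ℂ → ℂ := fun p => if R ≤ ‖p‖ then (F p - F z) / (F (π p) - F z) else 1
  have hGc : Continuous G := by
    refine continuous_if_le continuous_const continuous_norm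
      (((hc.mono hsub).sub continuousOn_const).div hQc hQ0) continuousOn_const fun p hp => ?_
    have hp0 : ‖p‖ ≠ 0 := by linarith
    have e : π p = p := by
      simp only [π]
      rw [hp, div_self hp0]
      simp
    have := hQ0 p hp.le
    rw [e] at this ⊢
    exact div_self this
  have hG0 : ∀ p, p ≠ z → G p ≠ 0 := by
    intro p hp
    simp only [G]
    split_ifs with h2
    · exact div_ne_zero (fun h0 => hp (hi (hsub h2) hzΩ (sub_eq_zero.1 h0))) (hQ0 p h2)
    · exact one_ne_zero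
  have h2 : HasLog fun u : S1 => G (((‖z‖ + 1 / 2 : ℝ) : ℂ) * (u : ℂ)) := by
    refine h1.congr fun u => ?_
    have e1 : ‖((‖z‖ + 1 / 2 : ℝ) : ℂ) * (u : ℂ)‖ = ‖z‖ + 1 / 2 := nrm _ u (by linarith)
    have e2 : R ≤ ‖((‖z‖ + 1 / 2 : ℝ) : ℂ) * (u : ℂ)‖ := by rw [e1]; linarith
    have e3 : π (((‖z‖ + 1 / 2 : ℝ) : ℂ) * (u : ℂ)) = R * u := by
      simp only [π]
      rw [e1, ← mul_assoc, ← ofReal_mul, div_mul_cancel₀ _ (by linarith)]
    simp only [G]
    rw [if_pos e2, e3, div_self hz0.ne']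
    simp
  -- step 3: shrink the big circle to a small one around `z`
  set ρ : ℝ := ‖z‖ - R with hρ
  have hρ0 : 0 < ρ := by linarith
  have h3 := HasLog.homotopy_on (isPreconnected_Icc (a := (0 : ℝ)) (b := 1))
    (fun t u => G ((((1 - t) * (‖z‖ + 1 / 2) + t * ρ : ℝ) : ℂ) * (u : ℂ) + (t : ℂ) * z))
    (hGc.comp (by fun_prop))
    (by
      intro t ht u
      refine hG0 _ fun h0 => ?_
      have e1 : (((1 - t) * (‖z‖ + 1 / 2) + t * ρ : ℝ) : ℂ) * (u : ℂ) = ((1 - t : ℝ) : ℂ) * z := by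
        push_cast at h0 ⊢
        linear_combination h0
      have e2 := congrArg norm e1
      have t0 := ht.1
      have t1 := ht.2
      rw [nrm _ u (by nlinarith), norm_mul, Complex.norm_real, Real.norm_eq_abs,
        abs_of_nonneg (by linarith)] at e2
      have e3 : (1 - t) / 2 + t * ρ = 0 := by linarith
      rcases eq_or_lt_of_le t0 with h5 | h5
      · rw [← h5] at e3
        norm_num at e3
      · have := mul_pos h5 hρ0
        linarith)
    (left_mem_Icc.2 zero_le_one) (right_mem_Icc.2 zero_le_one)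
    (h2.congr fun u => by simp)
  have hball : closedBall z ρ ⊆ {p : ℂ | R ≤ ‖p‖} := by
    intro p hp
    rw [mem_closedBall, dist_eq_norm] at hp
    have := norm_sub_norm_le z p
    rw [norm_sub_rev] at this
    change R ≤ ‖p‖
    linarith
  have m3 : ∀ t ∈ Icc (0 : ℝ) ρ, ∀ u : S1, z + (t : ℂ) * (u : ℂ) ∈ closedBall z ρ := by
    intro t ht u
    rw [mem_closedBall, dist_eq_norm, add_sub_cancel_left, nrm t u ht.1]
    exact ht.2
  have h4 := HasLog.homotopy_on (isPreconnected_Icc (a := (0 : ℝ)) (b := ρ))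
    (fun t u => F (π (z + (t : ℂ) * (u : ℂ))) - F z)
    (hQc.comp_continuous (by fun_prop) fun p => hball (m3 _ p.1.2 _))
    (fun t ht u => hQ0 _ (hball (m3 t ht u)))
    (left_mem_Icc.2 hρ0.le) (right_mem_Icc.2 hρ0.le)
    ((HasLog.const (hQ0 z hz.le)).congr fun u => by simp)
  refine not_hasLog_small_loop hρ0 (hc.mono (hball.trans hsub)) (hi.mono (hball.trans hsub))
    ((h3.mul h4).congr fun u => ?_)
  have e1 : (((1 - 1) * (‖z‖ + 1 / 2) + 1 * ρ : ℝ) : ℂ) * (u : ℂ) + ((1 : ℝ) : ℂ) * z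
      = z + ρ * u := by
    push_cast
    ring
  have e2 : R ≤ ‖z + (ρ : ℂ) * (u : ℂ)‖ := hball (m3 ρ (right_mem_Icc.2 hρ0.le) u)
  simp only [G]
  rw [e1, if_pos e2, div_mul_cancel₀ _ (hQ0 _ e2)]

/-- A closed connected subset of `ℂ` with bounded complement is injectively rigid. -/
theorem rigid_complex {X : Set ℂ} (hcl : IsClosed X) (hX : IsPreconnected X)
    (hb : Bornology.IsBounded Xᶜ) (f : X → ℂ) (hf : Continuous f) (hi : Function.Injective f) :
    IsEmbedding f := by
  classical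
  let F : ℂ → ℂ := fun p => if h : p ∈ X then f ⟨p, h⟩ else 0
  have hFf : ∀ p : X, F p = f p := fun p => dif_pos p.2
  have hFc : ContinuousOn F X := by
    rw [continuousOn_iff_continuous_domRestrict]
    exact hf.congr fun p => (hFf p).symm
  have hFi : InjOn F X := by
    intro p hp q hq hpq
    have : f ⟨p, hp⟩ = f ⟨q, hq⟩ := by rw [← hFf, ← hFf]; exact hpq
    exact congrArg Subtype.val (hi this)
  obtain ⟨R0, hR0, hR⟩ := hb.subset_closedBall_lt 0 (0 : ℂ)
  refine ⟨isInducing_iff_nhds.2 fun y => le_antisymm hf.continuousAt.le_comap ?_, hi⟩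
  intro U hU
  obtain ⟨V, hVU, hVo, hyV⟩ := _root_.mem_nhds_iff.1 hU
  set R : ℝ := max R0 ‖(y : ℂ)‖ + 1 with hRdef
  have hR1 : 1 < R := by
    have := le_max_left R0 ‖(y : ℂ)‖
    linarith
  have hyR : ‖(y : ℂ)‖ ≤ R - 1 := by
    have := le_max_right R0 ‖(y : ℂ)‖
    linarith
  have hΩ : {p : ℂ | R - 1 < ‖p‖} ⊆ X := by
    intro p hp
    by_contra hpX
    have h1 := hR hpX
    simp only [mem_closedBall, dist_zero_right] at h1
    have h2 : R - 1 < ‖p‖ := hp
    have := le_max_left R0 ‖(y : ℂ)‖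
    linarith
  have nrm : ∀ u : S1, ‖(R : ℂ) * (u : ℂ)‖ = R := by
    intro u
    rw [norm_mul, S1.norm_coe, mul_one, Complex.norm_real, Real.norm_eq_abs,
      abs_of_nonneg (by linarith)]
  have mR : ∀ u : S1, (R : ℂ) * (u : ℂ) ∈ X := by
    intro u
    refine hΩ ?_
    change R - 1 < ‖(R : ℂ) * (u : ℂ)‖
    rw [nrm]
    linarith
  have hγc : Continuous fun u : S1 => F (R * u) := hFc.comp_continuous (by fun_prop) mR
  have hne : ∀ q ∈ X, ‖q‖ ≠ R → ∀ u : S1, F (R * u) - F q ≠ 0 := by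
    intro q hq hqR u h0
    have h2 := congrArg norm (hFi (mR u) hq (sub_eq_zero.1 h0))
    rw [nrm] at h2
    exact hqR h2.symm
  -- the inner part is connected
  have hin : IsPreconnected (X ∩ closedBall 0 (R - 1 / 2)) := by
    have hr : 0 < R - 1 / 2 := by linarith
    let τ : ℂ → ℂ := fun p => (((R - 1 / 2) / max (R - 1 / 2) ‖p‖ : ℝ) : ℂ) * p
    have hτc : Continuous τ := by
      refine (continuous_ofReal.comp (continuous_const.div (by fun_prop) fun p => ?_)).mul
        continuous_id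
      exact (lt_of_lt_of_le hr (le_max_left _ _)).ne'
    have h1 := hX.image τ hτc.continuousOn
    convert h1 using 1
    ext q
    constructor
    · rintro ⟨hq, hq'⟩
      simp only [mem_closedBall, dist_zero_right] at hq'
      refine ⟨q, hq, ?_⟩
      simp only [τ]
      rw [max_eq_left hq', div_self hr.ne']
      simp
    · rintro ⟨p, hp, rfl⟩
      rcases le_total ‖p‖ (R - 1 / 2) with h2 | h2
      · have e : τ p = p := by
          simp only [τ]
          rw [max_eq_left h2, div_self hr.ne']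
          simp
        rw [e]
        exact ⟨hp, by simpa using h2⟩
      · have hp0 : 0 < ‖p‖ := lt_of_lt_of_le hr h2
        have e : ‖τ p‖ = R - 1 / 2 := by
          simp only [τ]
          rw [max_eq_right h2, norm_mul, Complex.norm_real, Real.norm_eq_abs,
            abs_of_nonneg (by positivity), div_mul_cancel₀ _ hp0.ne']
        refine ⟨hΩ ?_, by rw [mem_closedBall, dist_zero_right, e]⟩
        change R - 1 < ‖τ p‖
        rw [e]
        linarith
  have hyne : ‖(y : ℂ)‖ ≠ R := by linarith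
  -- a ball around `f y` missing the curve
  obtain ⟨ε, hε, hεb⟩ : ∃ ε > 0, ball (F y) ε ⊆ (range fun u : S1 => F (R * u))ᶜ := by
    refine Metric.isOpen_iff.1 (isCompact_range hγc).isClosed.isOpen_compl _ ?_
    rintro ⟨u, hu⟩
    exact hne y y.2 hyne u (sub_eq_zero.2 hu)
  have hfar : ∀ z : ℂ, R < ‖z‖ → F z ∉ ball (F y) ε := by
    intro z hz hzb
    have hz0 : 0 < ‖z‖ := by linarith
    have h1 : HasLog fun u : S1 => (F (R * u) - F y) / (F (R * u) - F z) := by
      have hb0 : ∀ w ∈ ball (F y) ε, ∀ u : S1, F (R * u) - w ≠ 0 :=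
        fun w hw u h0 => hεb hw ⟨u, sub_eq_zero.1 h0⟩
      exact HasLog.homotopy_on (isPreconnected_ball (x := F y) (r := ε))
        (fun w u => (F (R * u) - F y) / (F (R * u) - w))
        (((hγc.comp continuous_snd).sub continuous_const).div
          ((hγc.comp continuous_snd).sub (by fun_prop)) fun p => hb0 _ p.1.2 _)
        (fun w hw u => div_ne_zero (hne y y.2 hyne u) (hb0 w hw u))
        (mem_ball_self hε) hzb
        ((HasLog.const one_ne_zero).congr fun u => (div_self (hne y y.2 hyne u)).symm)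
    have hzX : z ∈ X := hΩ (by change R - 1 < ‖z‖; linarith)
    have e0 : ‖(((R - 1 / 2) / ‖z‖ : ℝ) : ℂ) * z‖ = R - 1 / 2 := by
      rw [norm_mul, Complex.norm_real, Real.norm_eq_abs,
        abs_of_nonneg (div_nonneg (by linarith) hz0.le), div_mul_cancel₀ _ hz0.ne']
    have h2 : HasLog fun u : S1 =>
        (F (R * u) - F ((((R - 1 / 2) / ‖z‖ : ℝ) : ℂ) * z)) / (F (R * u) - F z) := by
      refine HasLog.homotopy_on hin (fun q u => (F (R * u) - F q) / (F (R * u) - F z))
        (((hγc.comp continuous_snd).sub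
          (hFc.comp_continuous (by fun_prop) fun p => p.1.2.1)).div
          ((hγc.comp continuous_snd).sub continuous_const) fun p => hne z hzX hz.ne' _)
        (fun q hq u => div_ne_zero (hne q hq.1 ?_ u) (hne z hzX hz.ne' u))
        (a := y) ⟨y.2, ?_⟩ ⟨hΩ ?_, ?_⟩ h1
      · have := hq.2
        simp only [mem_closedBall, dist_zero_right] at this
        linarith
      · simp only [mem_closedBall, dist_zero_right]
        linarith
      · change R - 1 < ‖(((R - 1 / 2) / ‖z‖ : ℝ) : ℂ) * z‖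
        rw [e0]
        linarith
      · rw [mem_closedBall, dist_zero_right, e0]
    exact jump hR1 (hFc.mono hΩ) (hFi.mono hΩ) hz h2
  have hC : IsCompact ((Subtype.val ⁻¹' closedBall (0 : ℂ) R : Set X) ∩ Vᶜ) :=
    (hcl.isClosedEmbedding_subtypeVal.isCompact_preimage (isCompact_closedBall 0 R)).inter_right
      hVo.isClosed_compl
  have hV1 : (f '' ((Subtype.val ⁻¹' closedBall (0 : ℂ) R : Set X) ∩ Vᶜ))ᶜ ∈ 𝓝 (f y) := by
    refine (hC.image hf).isClosed.isOpen_compl.mem_nhds ?_
    rintro ⟨w, hw, hwy⟩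
    exact hw.2 (hi hwy ▸ hyV)
  refine mem_comap.2 ⟨_, inter_mem hV1 (ball_mem_nhds (f y) hε), fun w hw => hVU ?_⟩
  by_contra hwV
  rcases le_or_gt ‖(w : ℂ)‖ R with h1 | h1
  · exact hw.1 ⟨w, ⟨by simpa using h1, hwV⟩, rfl⟩
  · refine hfar w h1 ?_
    rw [hFf, hFf]
    exact hw.2

end Pool.Agent.Lib.MP_fef6c2_gt
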