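import Mathlib
import Pool.Agent.Lib.MP_fef6c2_gt.NonRigid
import Pool.Agent.Lib.MP_fef6c2_gt.Wind

set_option autoImplicit false

open Set Metric Filter Topology

namespace Pool.Agent.Lib.MP_fef6c2_gt

theorem one_lt_rank_plane : 1 < Module.rank ℝ (EuclideanSpace ℝ (Fin 2)) := by
  rw [← Module.finrank_eq_rank, finrank_euclideanSpace_fin]
  norm_num

/-- A closed connected subset of the plane with bounded complement is injectively rigid. -/
theorem rigid_plane {X : Set (EuclideanSpace ℝ (Fin 2))} (hcl : IsClosed X)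
    (hX : IsPreconnected X) (hb : Bornology.IsBounded Xᶜ) (f : X → EuclideanSpace ℝ (Fin 2))
    (hf : Continuous f) (hi : Function.Injective f) : IsEmbedding f := by
  let e : ℂ ≃ₗᵢ[ℝ] EuclideanSpace ℝ (Fin 2) := Complex.orthonormalBasisOneI.repr
  let φ : (e ⁻¹' X : Set ℂ) ≃ₜ X := e.toHomeomorph.sets rfl
  have h1 : IsClosed (e ⁻¹' X) := hcl.preimage e.continuous
  have h2 : IsPreconnected (e ⁻¹' X) := e.toHomeomorph.isPreconnected_preimage.2 hX
  have h3 : Bornology.IsBounded (e ⁻¹' X)ᶜ := by
    rw [← preimage_compl]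
    exact e.isometry.antilipschitz.isBounded_preimage hb
  have h4 := rigid_complex h1 h2 h3 (fun p => e.symm (f (φ p)))
    (e.symm.continuous.comp (hf.comp φ.continuous))
    (e.symm.injective.comp (hi.comp φ.injective))
  have h5 := (e.toHomeomorph.isEmbedding.comp h4).comp φ.symm.isEmbedding
  have h6 : (e.toHomeomorph ∘ fun p => e.symm (f (φ p))) ∘ φ.symm = f := by
    funext p
    simp
  rwa [h6] at h5

end Pool.Agent.Lib.MP_fef6c2_gt
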