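import Pool.Agent.Lib.MP_fef6c2_gt.NonRigid
import Pool.Agent.Lib.MP_c5277d_co.Topo

/-! An embedded sphere separates Euclidean space (Borsuk's extension argument). -/

set_option autoImplicit false

open Set Metric Filter Topology

namespace Pool.Agent.Lib.MP_fef6c2_gt

section General

variable {E : Type*} [NormedAddCommGroup E] [NormedSpace ℝ E]

theorem isPreconnected_shell (h : 1 < Module.rank ℝ E) (b : E) {s : Set ℝ}
    (hs : IsPreconnected s) (h0 : s ⊆ Ioi 0) : IsPreconnected {x : E | ‖x - b‖ ∈ s} := by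
  have h1 := (hs.prod (isPreconnected_sphere h (0 : E) 1)).image (fun p : ℝ × E => b + p.1 • p.2)
    (by fun_prop)
  convert h1 using 1
  ext x
  constructor
  · intro hx
    have h2 : 0 < ‖x - b‖ := h0 hx
    refine ⟨(‖x - b‖, ‖x - b‖⁻¹ • (x - b)), ⟨hx, ?_⟩, ?_⟩
    · simp [norm_smul, h2.ne']
    · simp [smul_smul, h2.ne']
  · rintro ⟨⟨t, u⟩, ⟨ht, hu⟩, rfl⟩
    have h2 : 0 < t := h0 ht
    have h3 : ‖u‖ = 1 := by simpa using hu
    simpa [norm_smul, h3, abs_of_pos h2] using ht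

theorem isPreconnected_puncture (h : 1 < Module.rank ℝ E) {W : Set E} (hW : IsOpen W)
    (hc : IsPreconnected W) (b : E) : IsPreconnected (W \ {b}) := by
  by_cases hb : b ∈ W
  swap
  · rwa [sdiff_singleton_eq_self hb]
  obtain ⟨r, hr, hB⟩ := Metric.isOpen_iff.1 hW b hb
  have hP := isPreconnected_shell h b (isPreconnected_Ioo (a := 0) (b := r)) fun _ ht => ht.1
  have hPW : {x : E | ‖x - b‖ ∈ Ioo 0 r} ⊆ W \ {b} := fun x hx =>
    ⟨hB (by rw [mem_ball, dist_eq_norm]; exact hx.2), fun e => by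
      rw [mem_singleton_iff] at e
      simp [e] at hx⟩
  have key : ∀ u v : Set E, IsOpen u → IsOpen v → W \ {b} ⊆ u ∪ v → (W \ {b}) ∩ (u ∩ v) = ∅ →
      {x : E | ‖x - b‖ ∈ Ioo 0 r} ⊆ u → W \ {b} ⊆ u := by
    intro u v hu hv h1 h2 h3
    have h4 : ∀ x, x ≠ b → x ∈ u ∪ ball b r → x ∈ u := by
      rintro x hx (hxu | hxu)
      · exact hxu
      · exact h3 ⟨norm_pos_iff.2 (sub_ne_zero.2 hx), by rwa [mem_ball, dist_eq_norm] at hxu⟩
    rcases isPreconnected_iff_subset_of_disjoint.1 hc (u ∪ ball b r) (v \ {b})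
      (hu.union isOpen_ball) (hv.sdiff isClosed_singleton) (fun x hx => by
        by_cases e : x = b
        · exact Or.inl (Or.inr (e ▸ mem_ball_self hr))
        · exact (h1 ⟨hx, e⟩).imp Or.inl fun h5 => ⟨h5, e⟩)
      (eq_empty_of_forall_notMem fun x hx => (eq_empty_iff_forall_notMem.1 h2) x
        ⟨⟨hx.1, hx.2.2.2⟩, h4 x hx.2.2.2 hx.2.1, hx.2.2.1⟩) with h5 | h5
    · exact fun x hx => h4 x hx.2 (h5 hx.1)
    · exact absurd rfl (h5 hb).2
  refine isPreconnected_iff_subset_of_disjoint.2 fun u v hu hv h1 h2 => ?_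
  rcases isPreconnected_iff_subset_of_disjoint.1 hP u v hu hv (hPW.trans h1)
    (eq_empty_of_subset_empty (h2 ▸ inter_subset_inter_left _ hPW)) with h3 | h3
  · exact Or.inl (key u v hu hv h1 h2 h3)
  · exact Or.inr (key v u hv hu (by rwa [union_comm]) (by rwa [inter_comm v]) h3)

theorem exists_homeo_push [CompleteSpace E] (h : 1 < Module.rank ℝ E) (D : Set E) (m : ℕ) :
    ∀ (W : Set E) (Z : Finset E), Z.card = m → IsOpen W → IsPreconnected W → (W ∩ D).Infinite →
      (Z : Set E) ⊆ W → ∃ g : E ≃ₜ E, (∀ x, x ∉ W → g x = x) ∧ ∀ z ∈ Z, g z ∈ D := by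
  classical
  induction m with
  | zero =>
    intro W Z hZ _ _ _ _
    exact ⟨Homeomorph.refl E, fun _ _ => rfl, by simp [Finset.card_eq_zero.1 hZ]⟩
  | succ m ih =>
    intro W Z hZ hW hc hD hZW
    obtain ⟨z, Z', hz, rfl, hZ'⟩ := Finset.card_eq_succ.1 hZ
    obtain ⟨b, hbW, hbD⟩ := hD.nonempty
    obtain ⟨g, g1, g2⟩ := exists_homeo_of_preconnected hW hc (hZW (by simp : z ∈ _)) hbW
    obtain ⟨k, k1, k2⟩ := ih (W \ {b}) (Z'.image g)
      (by rw [Finset.card_image_of_injective _ g.injective, hZ'])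
      (hW.sdiff isClosed_singleton) (isPreconnected_puncture h hW hc b)
      ((hD.sdiff (finite_singleton b)).mono fun x hx => ⟨⟨hx.1.1, hx.2⟩, hx.1.2⟩) (by
        intro x hx
        obtain ⟨y, hy, rfl⟩ := Finset.mem_image.1 hx
        have hyW : y ∈ W := hZW (by simp [hy])
        refine ⟨by_contra fun e => e ?_, fun e => hz ?_⟩
        · rwa [g.injective (g1 _ e)]
        · rwa [← g.injective (e.trans g2.symm)])
    refine ⟨g.trans k, fun x hx => ?_, fun y hy => ?_⟩
    · simp [g1 x hx, k1 x fun e => hx e.1]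
    · rcases Finset.mem_insert.1 hy with rfl | hy
      · simpa [g2, k1 b fun e => e.2 rfl] using hbD
      · exact k2 _ (Finset.mem_image_of_mem _ hy)

/-- Radial retraction onto a closed ball. -/
theorem exists_retract {r : ℝ} (hr : 0 < r) : ∃ τ : E → E, Continuous τ ∧
    (∀ p, ‖p‖ ≤ r → τ p = p) ∧ ∀ p, r ≤ ‖p‖ → ‖τ p‖ = r := by
  refine ⟨fun p => (r / max r ‖p‖) • p, (continuous_const.div (by fun_prop) fun p =>
    (lt_of_lt_of_le hr (le_max_left _ _)).ne').smul continuous_id, fun p hp => ?_, fun p hp => ?_⟩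
  · simp [max_eq_left hp, hr.ne']
  · have : 0 < ‖p‖ := hr.trans_le hp
    beta_reduce
    rw [max_eq_right hp, norm_smul, Real.norm_of_nonneg (by positivity), div_mul_cancel₀ _ this.ne']

end General

/-- A continuous map is uniformly close to a continuous map with isolated zeros. -/
theorem exists_approx_discrete {n : ℕ} {G : (Fin n → ℝ) → Fin n → ℝ} (hG : Continuous G) :
    ∃ H : (Fin n → ℝ) → Fin n → ℝ, Continuous H ∧ (∀ x, ‖H x - G x‖ < 1) ∧
      IsDiscrete {x | H x = 0} := by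
  obtain ⟨g, hg, hd, -⟩ := hG.exists_contDiff_approx 1 (ε := fun _ => 1 / 2) continuous_const
    fun _ => one_half_pos
  have h0 := MeasureTheory.addHaar_image_eq_zero_of_det_fderivWithin_eq_zero MeasureTheory.volume
    (s := {x | (fderiv ℝ g x).det = 0}) (f := g) (f' := fderiv ℝ g)
    (fun x _ => (hg.differentiable one_ne_zero x).hasFDerivAt.hasFDerivWithinAt) fun x hx => hx
  obtain ⟨v, hv, hv'⟩ := (MeasureTheory.Measure.dense_of_ae (μ := MeasureTheory.volume)
    (p := fun v => v ∉ g '' {x | (fderiv ℝ g x).det = 0}) (by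
      rw [MeasureTheory.ae_iff]
      simpa only [not_not, ofPred_mem_eq] using h0)).exists_dist_lt 0 one_half_pos
  refine ⟨fun x => g x - v, hg.continuous.sub continuous_const, fun x => ?_, ?_⟩
  · have h1 := hd x
    rw [dist_eq_norm] at h1
    rw [dist_zero_left] at hv'
    calc ‖g x - v - G x‖ = ‖(g x - G x) - v‖ := by congr 1; abel
      _ ≤ ‖g x - G x‖ + ‖v‖ := norm_sub_le _ _
      _ < 1 := by linarith
  · refine isDiscrete_iff_nhdsNE.2 fun x hx => ?_
    have hx' : g x = v := sub_eq_zero.1 hx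
    have h1 : (fderiv ℝ g x).det ≠ 0 := fun e => hv ⟨x, e, hx'⟩
    have h2 : HasStrictFDerivAt g (((fderiv ℝ g x).toContinuousLinearEquivOfDetNeZero h1 :
        (Fin n → ℝ) ≃L[ℝ] (Fin n → ℝ)) : (Fin n → ℝ) →L[ℝ] (Fin n → ℝ)) x := by
      simpa using hg.contDiffAt.hasStrictFDerivAt one_ne_zero
    rw [inf_principal_eq_bot]
    filter_upwards [mem_nhdsWithin_of_mem_nhds h2.eventually_left_inverse, self_mem_nhdsWithin]
      with y hy hy' e
    have e' : g y = g x := (sub_eq_zero.1 e).trans hx'.symm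
    rw [e', h2.localInverse_apply_image] at hy
    exact hy' hy.symm

/-- An embedded sphere separates. -/
theorem not_isPreconnected_compl_sphere {n : ℕ} (hn : 2 ≤ n) {γ : (Fin n → ℝ) → Fin n → ℝ}
    (hc : ContinuousOn γ (sphere 0 1)) (hi : InjOn γ (sphere 0 1)) :
    ¬ IsPreconnected (γ '' sphere 0 1)ᶜ := by
  intro hW
  have hrk : 1 < Module.rank ℝ (Fin n → ℝ) := by
    rw [← Module.finrank_eq_rank, Module.finrank_fin_fun]
    exact_mod_cast hn
  have hK : IsCompact (γ '' sphere 0 1) := (isCompact_sphere 0 1).image_of_continuousOn hc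
  obtain ⟨R, hR0, hR⟩ := hK.isBounded.subset_closedBall_lt 0 (0 : Fin n → ℝ)
  have he : IsClosedEmbedding ((sphere (0 : Fin n → ℝ) 1).domRestrict γ) :=
    hc.domRestrict.isClosedEmbedding hi.injective
  obtain ⟨Φ, hΦ⟩ := ContinuousMap.exists_extension' he
    (⟨fun x => x.1, by fun_prop⟩ : C(sphere (0 : Fin n → ℝ) 1, Fin n → ℝ))
  obtain ⟨Γ, hΓ⟩ := ContinuousMap.exists_extension' isClosed_sphere.isClosedEmbedding_subtypeVal
    (⟨_, hc.domRestrict⟩ : C(sphere (0 : Fin n → ℝ) 1, Fin n → ℝ))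
  have : Nonempty (Fin n) := ⟨⟨0, by omega⟩⟩
  have : Nontrivial (Fin n → ℝ) := Function.nontrivial
  obtain ⟨H, hH, hd, hZ⟩ := exists_approx_discrete
    (G := fun x => Φ x + min 1 (max 0 (‖x‖ - R)) • ((fun _ => 1) - Φ x)) (by fun_prop)
  obtain ⟨τ, hτ, τ1, τ2⟩ := exists_retract (E := Fin n → ℝ) hR0
  have h1 : ∀ u ∈ sphere (0 : Fin n → ℝ) 1, ‖γ u‖ ≤ R := fun u hu => by
    simpa using hR ⟨u, hu, rfl⟩
  have h2 : ∀ u ∈ sphere (0 : Fin n → ℝ) 1, ‖H (γ u) - u‖ < 1 := fun u hu => by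
    have h3 := hd (γ u)
    have h4 : Φ (γ u) = u := congrFun hΦ ⟨u, hu⟩
    rwa [max_eq_left (sub_nonpos.2 (h1 u hu)), min_eq_right zero_le_one, zero_smul, add_zero, h4]
      at h3
  have h3 : {x | H x = 0}.Finite := by
    refine ((isCompact_closedBall 0 (R + 1)).of_isClosed_subset
      (isClosed_eq hH continuous_const) fun x hx => ?_).finite hZ
    by_contra h4
    rw [mem_closedBall, dist_zero_right, not_le] at h4
    have h5 := hd x
    rw [max_eq_right (by linarith), min_eq_left (by linarith), show H x = 0 from hx] at h5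
    simp at h5
  obtain ⟨g, g1, g2⟩ := exists_homeo_push hrk {x | R < ‖x‖} _ _ h3.toFinset rfl
    hK.isClosed.isOpen_compl hW (by
      refine (infinite_of_mem_nhds (fun _ => R + 1 : Fin n → ℝ)
        ((isOpen_lt continuous_const continuous_norm).mem_nhds (s := {x | R < ‖x‖}) ?_)).mono
        fun x hx => ⟨fun e => ?_, hx⟩
      · show R < _
        rw [pi_norm_const, Real.norm_of_nonneg (by linarith)]
        linarith
      · have h4 := hR e
        rw [mem_closedBall, dist_zero_right] at h4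
        exact absurd hx (not_lt.2 h4)) (by
      rintro x hx ⟨u, hu, rfl⟩
      have h4 := h2 u hu
      rw [show H (γ u) = 0 by simpa using hx] at h4
      simp [mem_sphere_zero_iff_norm.1 hu] at h4)
  obtain ⟨x, -, hx⟩ := MP_c5277d_co.exists_zero_of_near_id (a := (0 : Fin n → ℝ)) zero_le_one
    (g := fun x => H (g.symm (τ (Γ x)))) (by fun_prop) fun u hu => by
      have h4 : Γ u = γ u := congrFun hΓ ⟨u, hu⟩
      have h5 : g.symm (γ u) = γ u :=
        g.symm_apply_eq.2 (g1 _ (not_not.2 ⟨u, hu, rfl⟩)).symm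
      rw [h4, τ1 _ (h1 u hu), h5, sub_zero]
      exact (h2 u hu).le
  have h4 : R < ‖τ (Γ x)‖ := by simpa using g2 _ (h3.mem_toFinset.2 hx)
  rcases le_total ‖Γ x‖ R with h5 | h5
  · rw [τ1 _ h5] at h4
    linarith
  · linarith [τ2 _ h5]

/-- The two sides of an embedded shell lie in different components. -/
theorem not_mem_component {n : ℕ} (hn : 2 ≤ n) {F : (Fin n → ℝ) → Fin n → ℝ} {R : ℝ} (hR : 1 < R)
    (hc : ContinuousOn F {p | R - 1 < ‖p‖}) (hi : InjOn F {p | R - 1 < ‖p‖}) {a b : Fin n → ℝ}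
    (ha : ‖a‖ ∈ Ioo (R - 1) R) (hb : R < ‖b‖) :
    F b ∉ connectedComponentIn (F '' sphere 0 R)ᶜ (F a) := by
  intro hab
  have hrk : 1 < Module.rank ℝ (Fin n → ℝ) := by
    rw [← Module.finrank_eq_rank, Module.finrank_fin_fun]
    exact_mod_cast hn
  have hS : sphere (0 : Fin n → ℝ) R ⊆ {p | R - 1 < ‖p‖} := fun p hp => by
    show R - 1 < _
    rw [mem_sphere_zero_iff_norm.1 hp]
    linarith
  have hK : IsCompact (F '' sphere 0 R) := (isCompact_sphere 0 R).image_of_continuousOn (hc.mono hS)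
  set W := (F '' sphere 0 R)ᶜ with hW
  set C := connectedComponentIn W (F a) with hC
  have side : ∀ s : Set ℝ, IsPreconnected s → s ⊆ Ioi (R - 1) → R ∉ s → ∀ c : Fin n → ℝ,
      ‖c‖ ∈ s → F c ∈ C → ∀ p, ‖p‖ ∈ s → F p ∈ C := by
    intro s hs hs1 hs2 c hcs hcC p hp
    have h1 := isPreconnected_shell hrk 0 hs fun t ht => (sub_pos.2 hR).trans (hs1 ht)
    simp only [sub_zero] at h1
    have h2 : F '' {x | ‖x‖ ∈ s} ⊆ W := by
      rintro _ ⟨x, hx, rfl⟩ ⟨y, hy, e⟩
      rw [hi (hS hy) (hs1 hx) e, mem_sphere_zero_iff_norm] at hy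
      exact hs2 (hy ▸ hx)
    rw [hC, connectedComponentIn_eq hcC]
    exact (h1.image F (hc.mono fun x hx => hs1 hx)).subset_connectedComponentIn ⟨c, hcs, rfl⟩ h2
      ⟨p, hp, rfl⟩
  have haW : F a ∈ W := by
    rintro ⟨y, hy, e⟩
    rw [hi (hS hy) ha.1 e, mem_sphere_zero_iff_norm] at hy
    exact ha.2.ne hy
  have hWo : IsOpen W := hK.isClosed.isOpen_compl
  have h1 : IsOpen (C ∪ Wᶜ) := by
    refine isOpen_iff_mem_nhds.2 fun x hx => hx.elim
      (fun h => mem_of_superset (hWo.connectedComponentIn.mem_nhds h) subset_union_left) fun h => ?_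
    obtain ⟨y, hy, rfl⟩ := not_not.1 h
    refine mem_of_superset (MP_c5277d_co.invariance_of_domain rfl
      ((isOpen_lt continuous_const continuous_norm).mem_nhds (hS hy)) hc hi) ?_
    rintro _ ⟨p, hp, rfl⟩
    rcases lt_trichotomy ‖p‖ R with h2 | h2 | h2
    · exact Or.inl (side _ isPreconnected_Ioo (fun _ h => h.1) (fun h => h.2.false) a ha
        (mem_connectedComponentIn haW) p ⟨hp, h2⟩)
    · exact Or.inr (not_not.2 ⟨p, mem_sphere_zero_iff_norm.2 h2, rfl⟩)
    · exact Or.inl (side _ isPreconnected_Ioi (fun t (h : R < t) => show R - 1 < t by linarith)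
        (lt_irrefl R) b hb hab p h2)
  have h2 : IsClosed (C ∪ Wᶜ) := by
    refine isOpen_compl_iff.1 (isOpen_iff_mem_nhds.2 fun x hx => ?_)
    have hxW : x ∈ W := not_not.1 fun e => hx (Or.inr e)
    refine mem_of_superset (hWo.connectedComponentIn.mem_nhds (mem_connectedComponentIn hxW))
      fun y hy => ?_
    rintro (h | h)
    · refine hx (Or.inl ?_)
      rw [hC, connectedComponentIn_eq h, ← connectedComponentIn_eq hy]
      exact mem_connectedComponentIn hxW
    · exact h (connectedComponentIn_subset _ _ hy)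
  have h3 := IsClopen.eq_univ ⟨h2, h1⟩ ⟨_, Or.inl hab⟩
  have h4 : W = C := Subset.antisymm (fun x hx => (h3.ge (mem_univ x)).resolve_right (not_not.2 hx))
    (connectedComponentIn_subset _ _)
  have h5 : (fun u : Fin n → ℝ => R • u) '' sphere 0 1 = sphere 0 R := by
    rw [image_smul, smul_sphere' (by linarith)]
    simp [abs_of_pos (by linarith : 0 < R)]
  have h6 : MapsTo (fun u : Fin n → ℝ => R • u) (sphere 0 1) {p | R - 1 < ‖p‖} :=
    fun u hu => hS (h5 ▸ mem_image_of_mem _ hu)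
  refine not_isPreconnected_compl_sphere hn (γ := F ∘ fun u => R • u)
    (hc.comp (by fun_prop) h6) (hi.comp (smul_right_injective _ (by linarith)).injOn h6) ?_
  rw [image_comp, h5, ← hW, h4]
  exact isPreconnected_connectedComponentIn

/-- A closed connected set with bounded complement is injectively rigid. -/
theorem rigid_pi {n : ℕ} (hn : 2 ≤ n) {X : Set (Fin n → ℝ)} (hcl : IsClosed X)
    (hX : IsPreconnected X) (hb : Bornology.IsBounded Xᶜ) (f : X → Fin n → ℝ) (hf : Continuous f)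
    (hi : Function.Injective f) : IsEmbedding f := by
  classical
  let F : (Fin n → ℝ) → Fin n → ℝ := fun p => if h : p ∈ X then f ⟨p, h⟩ else 0
  have hFf : ∀ p : X, F p = f p := fun p => dif_pos p.2
  have hFc : ContinuousOn F X := by
    rw [continuousOn_iff_continuous_domRestrict]
    exact hf.congr fun p => (hFf p).symm
  have hFi : InjOn F X := by
    intro p hp q hq hpq
    have : f ⟨p, hp⟩ = f ⟨q, hq⟩ := by rw [← hFf, ← hFf]; exact hpq
    exact congrArg Subtype.val (hi this)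
  obtain ⟨R0, hR0, hR⟩ := hb.subset_closedBall_lt 0 (0 : Fin n → ℝ)
  refine ⟨isInducing_iff_nhds.2 fun y => le_antisymm hf.continuousAt.le_comap ?_, hi⟩
  intro U hU
  obtain ⟨V, hVU, hVo, hyV⟩ := _root_.mem_nhds_iff.1 hU
  obtain ⟨R, hR1, hR2⟩ : ∃ R, R0 ≤ R - 1 ∧ ‖(y : Fin n → ℝ)‖ ≤ R - 1 :=
    ⟨max R0 ‖(y : Fin n → ℝ)‖ + 1, by simp, by simp⟩
  have hΩ : {p : Fin n → ℝ | R - 1 < ‖p‖} ⊆ X := by
    intro p hp
    by_contra hpX
    have h1 := hR hpX
    rw [mem_closedBall, dist_zero_right] at h1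
    exact absurd hp (not_lt.2 (h1.trans hR1))
  obtain ⟨τ, hτ, τ1, τ2⟩ := exists_retract (E := Fin n → ℝ) (r := R - 1 / 2) (by linarith)
  have τ3 : ∀ p ∈ X, τ p ∈ X ∧ ‖τ p‖ ≤ R - 1 / 2 := fun p hp => by
    rcases le_total ‖p‖ (R - 1 / 2) with h | h
    · rw [τ1 p h]
      exact ⟨hp, h⟩
    · exact ⟨hΩ (show R - 1 < _ by rw [τ2 p h]; linarith), (τ2 p h).le⟩
  have hS : sphere (0 : Fin n → ℝ) R ⊆ X := fun p hp => hΩ (by
    show R - 1 < _
    rw [mem_sphere_zero_iff_norm.1 hp]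
    linarith)
  have hWo : IsOpen (F '' sphere 0 R)ᶜ :=
    ((isCompact_sphere 0 R).image_of_continuousOn (hFc.mono hS)).isClosed.isOpen_compl
  have hin : (F ∘ τ) '' X ⊆ connectedComponentIn (F '' sphere 0 R)ᶜ (F y) := by
    refine (hX.image _ (hFc.comp hτ.continuousOn fun p hp => (τ3 p hp).1)).subset_connectedComponentIn
      ⟨y, y.2, congrArg F (τ1 _ (by linarith))⟩ ?_
    rintro _ ⟨p, hp, rfl⟩ ⟨q, hq, e⟩
    rw [hFi (hS hq) (τ3 p hp).1 e, mem_sphere_zero_iff_norm] at hq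
    linarith [(τ3 p hp).2]
  have hfar : ∀ z, R < ‖z‖ → F z ∉ connectedComponentIn (F '' sphere 0 R)ᶜ (F y) := by
    intro z hz
    rw [connectedComponentIn_eq (hin ⟨z, hΩ (show R - 1 < _ by linarith), rfl⟩)]
    refine not_mem_component hn (by linarith) (hFc.mono hΩ) (hFi.mono hΩ) ?_ hz
    rw [τ2 z (by linarith)]
    constructor <;> linarith
  have hC : IsCompact ((Subtype.val ⁻¹' closedBall (0 : Fin n → ℝ) R : Set X) ∩ Vᶜ) :=
    (hcl.isClosedEmbedding_subtypeVal.isCompact_preimage (isCompact_closedBall 0 R)).inter_right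
      hVo.isClosed_compl
  have hV1 : (f '' ((Subtype.val ⁻¹' closedBall (0 : Fin n → ℝ) R : Set X) ∩ Vᶜ))ᶜ ∈ 𝓝 (f y) := by
    refine (hC.image hf).isClosed.isOpen_compl.mem_nhds ?_
    rintro ⟨w, hw, hwy⟩
    exact hw.2 (hi hwy ▸ hyV)
  have hV2 : connectedComponentIn (F '' sphere 0 R)ᶜ (F y) ∈ 𝓝 (f y) :=
    hWo.connectedComponentIn.mem_nhds
      (hFf y ▸ hin ⟨y, y.2, congrArg F (τ1 _ (by linarith))⟩)
  refine mem_comap.2 ⟨_, inter_mem hV1 hV2, fun w hw => hVU ?_⟩
  by_contra hwV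
  rcases le_or_gt ‖(w : Fin n → ℝ)‖ R with h1 | h1
  · exact hw.1 ⟨w, ⟨by simpa using h1, hwV⟩, rfl⟩
  · exact hfar w h1 (hFf w ▸ hw.2)

theorem rigid_euclidean {n : ℕ} (hn : 2 ≤ n) {X : Set (EuclideanSpace ℝ (Fin n))}
    (hcl : IsClosed X) (hX : IsPreconnected X) (hb : Bornology.IsBounded Xᶜ)
    (f : X → EuclideanSpace ℝ (Fin n)) (hf : Continuous f) (hi : Function.Injective f) :
    IsEmbedding f := by
  let e : (Fin n → ℝ) ≃L[ℝ] EuclideanSpace ℝ (Fin n) := (EuclideanSpace.equiv (Fin n) ℝ).symm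
  let φ : (e ⁻¹' X : Set (Fin n → ℝ)) ≃ₜ X := e.toHomeomorph.sets rfl
  have h4 := rigid_pi hn (hcl.preimage e.continuous) (e.toHomeomorph.isPreconnected_preimage.2 hX)
    (by
      rw [← preimage_compl]
      exact e.antilipschitz.isBounded_preimage hb) (fun p => e.symm (f (φ p)))
    (e.symm.continuous.comp (hf.comp φ.continuous))
    (e.symm.injective.comp (hi.comp φ.injective))
  have h5 := (e.toHomeomorph.isEmbedding.comp h4).comp φ.symm.isEmbedding
  have h6 : (e.toHomeomorph ∘ fun p => e.symm (f (φ p))) ∘ φ.symm = f := by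
    funext p
    simp
  rwa [h6] at h5

end Pool.Agent.Lib.MP_fef6c2_gt
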